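import Mathlib
import Pool.Agent.helper61.DL.Defs4

set_option autoImplicit false

/-! # Integral points of dilated open simplices (MP_6163c8_ag, module VOL1) -/

namespace Pool.Agent.helper3.DL.Vol1

open Finset Filter Topology Pool.Agent.helper61.DL

section
variable {n : ℕ} {ι : Type} [Fintype ι] [DecidableEq ι]

theorem card_sum (k : ℕ) :
    Nat.card {m : ι → ℕ // ∑ v, m v = k} = (Fintype.card ι + k - 1).choose k := by
  rw [← Nat.card_congr (Sym.equivNatSumOfFintype ι k), Sym.natCard_sym_eq_choose,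
    Nat.card_eq_fintype_card]

theorem finite_sum (h k : ℕ) : Finite {m : ι → ℕ // ∑ v, m v + h = k} := by
  have h1 : Finite {m : ι → ℕ // ∑ v, m v = k - h} :=
    Finite.of_equiv _ (Sym.equivNatSumOfFintype ι (k - h))
  refine Finite.of_injective (fun m : {m : ι → ℕ // ∑ v, m v + h = k} =>
    (⟨m.1, by have := m.2; omega⟩ : {m : ι → ℕ // ∑ v, m v = k - h})) ?_
  intro a b hab
  have := congrArg Subtype.val hab
  exact Subtype.ext this

theorem card_sum_add (h k : ℕ) :
    Nat.card {m : ι → ℕ // ∑ v, m v + h = k + h} = (Fintype.card ι + k - 1).choose k := by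
  rw [← card_sum]
  refine Nat.card_congr (Equiv.subtypeEquivRight fun m => ?_)
  omega

theorem tendsto_ratio (a b : ℕ) :
    Tendsto (fun N : ℕ => ((N : ℝ) + a) / (N + b)) atTop (𝓝 1) := by
  have h1 : Tendsto (fun N : ℕ => (N : ℝ) / (N + a)) atTop (𝓝 1) :=
    tendsto_natCast_div_add_atTop (a : ℝ)
  have h2 : Tendsto (fun N : ℕ => (N : ℝ) / (N + b)) atTop (𝓝 1) :=
    tendsto_natCast_div_add_atTop (b : ℝ)
  have h3 := h2.div h1 one_ne_zero
  rw [div_one] at h3
  refine h3.congr' ?_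
  filter_upwards [eventually_ge_atTop 1] with N hN
  have hN' : (0 : ℝ) < N := by exact_mod_cast hN
  have ha : (0 : ℝ) < N + a := by positivity
  have hb : (0 : ℝ) < N + b := by positivity
  simp only [Pi.div_apply]
  field_simp

theorem tendsto_one (d h : ℕ) (hd : Fintype.card ι = d + 1) :
    Tendsto (fun N : ℕ => (d.factorial : ℝ) *
      Nat.card {m : ι → ℕ // ∑ v, m v + h = N} / (N : ℝ) ^ d) atTop (𝓝 1) := by
  rw [← tendsto_add_atTop_iff_nat h]
  have h1 : ∀ N : ℕ, Nat.card {m : ι → ℕ // ∑ v, m v + h = N + h} = (N + d).choose d := by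
    intro N
    rw [card_sum_add, hd]
    have : d + 1 + N - 1 = N + d := by omega
    rw [this]
    exact (Nat.choose_symm_of_eq_add rfl)
  have h2 : Tendsto (fun N : ℕ => (d.factorial : ℝ) * ((N + d).choose d : ℕ) /
      ((N : ℝ) + d) ^ d) atTop (𝓝 1) := by
    have h3 := (isEquivalent_choose d).comp_tendsto (tendsto_add_atTop_nat d)
    rw [Asymptotics.isEquivalent_iff_tendsto_one] at h3
    · refine h3.congr' ?_
      filter_upwards [eventually_ge_atTop 1] with N hN
      have hN' : (0 : ℝ) < N := by exact_mod_cast hN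
      have hf : (0 : ℝ) < d.factorial := by exact_mod_cast d.factorial_pos
      simp only [Pi.div_apply, Function.comp_apply, Nat.cast_add]
      field_simp
    · filter_upwards [eventually_ge_atTop 1] with N hN
      have hN' : (0 : ℝ) < N := by exact_mod_cast hN
      have hf : (0 : ℝ) < d.factorial := by exact_mod_cast d.factorial_pos
      simp only [Function.comp_apply, Nat.cast_add]
      positivity
  have h4 := h2.mul ((tendsto_ratio d h).pow d)
  rw [one_pow, one_mul] at h4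
  refine h4.congr' ?_
  filter_upwards [eventually_ge_atTop 1] with N hN
  have hN' : (0 : ℝ) < N := by exact_mod_cast hN
  have ha : (0 : ℝ) < N + d := by positivity
  have hb : (0 : ℝ) < N + h := by positivity
  rw [h1, div_pow, Nat.cast_add]
  field_simp

/-- fractional part in `(0, 1]` -/
noncomputable def fr (c : ι → ℝ) : ι → ℝ := fun v => c v - (⌈c v⌉ - 1)

theorem fr_pos (c : ι → ℝ) (v : ι) : 0 < fr c v := by
  have := Int.ceil_lt_add_one (c v)
  unfold fr
  linarith

theorem fr_le (c : ι → ℝ) (v : ι) : fr c v ≤ 1 := by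
  have := Int.le_ceil (c v)
  unfold fr
  linarith

/-- the box -/
def Bx (V : ι → Fin n → ℕ) : Set (ι → ℝ) :=
  {f | (∀ v, 0 < f v ∧ f v ≤ 1) ∧ (∃ h : ℕ, ∑ v, f v = h) ∧
    ∃ x : Fin n → ℤ, ∀ i, (x i : ℝ) = ∑ v, f v * V v i}

/-- the open simplex -/
def Sx (V : ι → Fin n → ℕ) (N : ℕ) : Set (Fin n → ℤ) :=
  {x | ∃ c : ι → ℝ, (∀ v, 0 < c v) ∧ ∑ v, c v = N ∧ ∀ i, (x i : ℝ) = ∑ v, c v * V v i}

theorem fr_mem (V : ι → Fin n → ℕ) (c : ι → ℝ) (k : ℤ) (hk : ∑ v, c v = k) (x : Fin n → ℤ)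
    (hx : ∀ i, (x i : ℝ) = ∑ v, c v * V v i) : fr c ∈ Bx V := by
  refine ⟨fun v => ⟨fr_pos c v, fr_le c v⟩, ?_, ?_⟩
  · have h1 : ∑ v, fr c v = ((k - ∑ v, (⌈c v⌉ - 1) : ℤ) : ℝ) := by
      unfold fr
      rw [Finset.sum_sub_distrib, hk]
      push_cast
      ring
    have h2 : (0 : ℝ) ≤ ∑ v, fr c v := Finset.sum_nonneg fun v _ => (fr_pos c v).le
    rw [h1] at h2
    have h3 : 0 ≤ (k - ∑ v, (⌈c v⌉ - 1) : ℤ) := by exact_mod_cast h2
    obtain ⟨m, hm⟩ := Int.eq_ofNat_of_zero_le h3
    refine ⟨m, ?_⟩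
    rw [h1, hm]
    simp
  · refine ⟨fun i => x i - ∑ v, (⌈c v⌉ - 1) * V v i, fun i => ?_⟩
    push_cast
    rw [hx i, ← Finset.sum_sub_distrib]
    refine Finset.sum_congr rfl fun v _ => ?_
    unfold fr
    ring

theorem uniq {V : ι → Fin n → ℕ} (hli : LinearIndependent ℝ fun (v : ι) (i : Fin n) => (V v i : ℝ))
    {c c' : ι → ℝ} (h : ∀ i, ∑ v, c v * (V v i : ℝ) = ∑ v, c' v * (V v i : ℝ)) : c = c' := by
  rw [Fintype.linearIndependent_iff] at hli
  have h1 := hli (fun v => c v - c' v) ?_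
  · funext v
    have := h1 v
    linarith
  · funext i
    simp only [Finset.sum_apply, Pi.smul_apply, smul_eq_mul, Pi.zero_apply]
    have := h i
    calc ∑ v, (c v - c' v) * (V v i : ℝ) = ∑ v, (c v * (V v i : ℝ) - c' v * (V v i : ℝ)) :=
          Finset.sum_congr rfl fun v _ => by ring
      _ = 0 := by rw [Finset.sum_sub_distrib, this, sub_self]

theorem finite_Bx {V : ι → Fin n → ℕ}
    (hli : LinearIndependent ℝ fun (v : ι) (i : Fin n) => (V v i : ℝ)) : Finite (Bx V) := by
  have hfin : (Set.Icc (0 : Fin n → ℤ) fun i => ∑ v, (V v i : ℤ)).Finite := Set.finite_Icc _ _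
  have : Finite (Set.Icc (0 : Fin n → ℤ) fun i => ∑ v, (V v i : ℤ)) := hfin
  choose x hx using fun f : Bx V => f.2.2.2
  refine Finite.of_injective (fun f : Bx V => (⟨x f, ?_⟩ : Set.Icc (0 : Fin n → ℤ)
    fun i => ∑ v, (V v i : ℤ))) ?_
  · constructor
    · intro i
      have h1 : (0 : ℝ) ≤ x f i := by
        rw [hx f i]
        exact Finset.sum_nonneg fun v _ => mul_nonneg (f.2.1 v).1.le (Nat.cast_nonneg _)
      show (0 : ℤ) ≤ x f i
      exact_mod_cast h1
    · intro i
      have h1 : (x f i : ℝ) ≤ ((∑ v, (V v i : ℤ) : ℤ) : ℝ) := by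
        rw [hx f i]
        push_cast
        refine Finset.sum_le_sum fun v _ => ?_
        exact mul_le_of_le_one_left (Nat.cast_nonneg _) (f.2.1 v).2
      exact_mod_cast h1
  · intro f g hfg
    have h1 : x f = x g := congrArg Subtype.val hfg
    refine Subtype.ext (uniq hli fun i => ?_)
    rw [← hx f i, ← hx g i, h1]

/-- the number of points of the open simplex -/
theorem card_Sx {V : ι → Fin n → ℕ}
    (hli : LinearIndependent ℝ fun (v : ι) (i : Fin n) => (V v i : ℝ)) :
    ∃ (_ : Fintype (Bx V)) (h : Bx V → ℕ), ∀ N : ℕ, Finite (Sx V N) ∧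
      Nat.card (Sx V N) = ∑ f : Bx V, Nat.card {m : ι → ℕ // ∑ v, m v + h f = N} := by
  have hfin := finite_Bx hli
  let _ : Fintype (Bx V) := Fintype.ofFinite _
  choose h hh using fun f : Bx V => f.2.2.1
  choose x hx using fun f : Bx V => f.2.2.2
  refine ⟨inferInstance, h, fun N => ?_⟩
  have hfin2 : ∀ f : Bx V, Finite {m : ι → ℕ // ∑ v, m v + h f = N} := fun f => finite_sum _ _
  let φ : (Σ f : Bx V, {m : ι → ℕ // ∑ v, m v + h f = N}) → Sx V N := fun p =>
    ⟨fun i => x p.1 i + ∑ v, (p.2.1 v : ℤ) * V v i, fun v => p.1.1 v + p.2.1 v,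
      fun v => by
        have := (p.1.2.1 v).1
        positivity, by
      have h9 : ((∑ v, p.2.1 v + h p.1 : ℕ) : ℝ) = (N : ℝ) := congrArg Nat.cast p.2.2
      rw [Finset.sum_add_distrib, hh p.1, ← h9]
      push_cast
      ring, fun i => by
      push_cast
      rw [hx p.1 i, ← Finset.sum_add_distrib]
      refine Finset.sum_congr rfl fun v _ => ?_
      ring⟩
  have hφ : Function.Bijective φ := by
    constructor
    · rintro ⟨f, m⟩ ⟨g, k⟩ hfg
      have h1 : ∀ i, (x f i + ∑ v, (m.1 v : ℤ) * V v i) = x g i + ∑ v, (k.1 v : ℤ) * V v i :=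
        fun i => congrFun (congrArg Subtype.val hfg) i
      have h2 : (fun v => f.1 v + m.1 v) = fun v => g.1 v + (k.1 v : ℝ) := by
        refine uniq hli fun i => ?_
        have h3 : ((x f i + ∑ v, (m.1 v : ℤ) * V v i : ℤ) : ℝ) =
            ((x g i + ∑ v, (k.1 v : ℤ) * V v i : ℤ) : ℝ) := by rw [h1 i]
        push_cast at h3
        rw [hx f i, hx g i] at h3
        simp only [add_mul, Finset.sum_add_distrib]
        exact h3
      have h3 : ∀ v, m.1 v = k.1 v := by
        intro v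
        have h4 : f.1 v + (m.1 v : ℝ) = g.1 v + (k.1 v : ℝ) := congrFun h2 v
        have a1 := f.2.1 v
        have a2 := g.2.1 v
        have a3 : (m.1 v : ℝ) < k.1 v + 1 := by linarith
        have a4 : (k.1 v : ℝ) < m.1 v + 1 := by linarith
        have a5 : m.1 v < k.1 v + 1 := by exact_mod_cast a3
        have a6 : k.1 v < m.1 v + 1 := by exact_mod_cast a4
        omega
      have h5 : f = g := by
        refine Subtype.ext (funext fun v => ?_)
        have h4 : f.1 v + (m.1 v : ℝ) = g.1 v + (k.1 v : ℝ) := congrFun h2 v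
        rw [h3 v] at h4
        linarith
      subst h5
      have h6 : m = k := Subtype.ext (funext h3)
      rw [h6]
    · rintro ⟨y, c, hc, hcN, hy⟩
      have hmem : fr c ∈ Bx V := fr_mem V c N (by rw [hcN]; simp) y hy
      have hceil : ∀ v, (⌈c v⌉ - 1 : ℤ) = ((⌈c v⌉ - 1).toNat : ℤ) := by
        intro v
        rw [Int.toNat_of_nonneg]
        have := Int.ceil_pos.2 (hc v)
        omega
      have hceil' : ∀ v, ((⌈c v⌉ : ℝ) - 1) = (((⌈c v⌉ - 1).toNat : ℕ) : ℝ) := by
        intro v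
        have := hceil v
        have h2 : ((⌈c v⌉ - 1 : ℤ) : ℝ) = (((⌈c v⌉ - 1).toNat : ℤ) : ℝ) := by rw [← this]
        push_cast at h2
        simpa using h2
      refine ⟨⟨⟨fr c, hmem⟩, ⟨fun v => (⌈c v⌉ - 1).toNat, ?_⟩⟩, ?_⟩
      · have h1 : ((∑ v, (⌈c v⌉ - 1).toNat + h ⟨fr c, hmem⟩ : ℕ) : ℝ) = N := by
          push_cast
          rw [← hh ⟨fr c, hmem⟩, ← hcN]
          simp only [← hceil', fr]
          rw [← Finset.sum_add_distrib]
          refine Finset.sum_congr rfl fun v _ => ?_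
          ring
        exact_mod_cast h1
      · refine Subtype.ext (funext fun i => ?_)
        have h1 : ((x ⟨fr c, hmem⟩ i + ∑ v, (((⌈c v⌉ - 1).toNat : ℕ) : ℤ) * V v i : ℤ) : ℝ) =
            y i := by
          push_cast
          rw [hx ⟨fr c, hmem⟩ i, hy i, ← Finset.sum_add_distrib]
          refine Finset.sum_congr rfl fun v _ => ?_
          simp only [← hceil', fr]
          ring
        exact Int.cast_injective h1
  refine ⟨Finite.of_surjective φ hφ.2, ?_⟩
  rw [← Nat.card_congr (Equiv.ofBijective φ hφ), Nat.card_sigma]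

theorem tendsto_card {V : ι → Fin n → ℕ}
    (hli : LinearIndependent ℝ fun (v : ι) (i : Fin n) => (V v i : ℝ)) (d : ℕ)
    (hd : Fintype.card ι = d + 1) :
    Tendsto (fun N : ℕ => (d.factorial : ℝ) * Nat.card (Sx V N) / (N : ℝ) ^ d) atTop
      (𝓝 (Nat.card (Bx V))) := by
  obtain ⟨_, h, hcard⟩ := card_Sx hli
  have h1 : Tendsto (fun N : ℕ => ∑ f : Bx V, (d.factorial : ℝ) *
      Nat.card {m : ι → ℕ // ∑ v, m v + h f = N} / (N : ℝ) ^ d) atTop
      (𝓝 (∑ f : Bx V, (1 : ℝ))) := tendsto_finsetSum _ fun f _ => tendsto_one d (h f) hd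
  rw [Finset.sum_const, Finset.card_univ, nsmul_eq_mul, mul_one, ← Nat.card_eq_fintype_card] at h1
  refine h1.congr fun N => ?_
  rw [(hcard N).2, ← Finset.sum_div, ← Finset.mul_sum]
  push_cast
  rfl

/-- the lattice spanned by the differences -/
theorem mem_clos (V : ι → Fin n → ℕ) (v0 : ι) (x : Fin n → ℤ) :
    x ∈ AddSubgroup.closure {d : Fin n → ℤ | ∃ u v, d = fun i => (V v i : ℤ) - (V u i : ℤ)} ↔
      ∃ a : ι → ℤ, ∑ v, a v = 0 ∧ ∀ i, x i = ∑ v, a v * V v i := by
  constructor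
  · intro hx
    induction hx using AddSubgroup.closure_induction with
    | mem y hy =>
      obtain ⟨u, v, rfl⟩ := hy
      refine ⟨fun w => (if w = v then 1 else 0) - if w = u then 1 else 0, ?_, fun i => ?_⟩
      · simp
      · simp [sub_mul]
    | zero => exact ⟨0, by simp, fun i => by simp⟩
    | add y z _ _ hy hz =>
      obtain ⟨a, ha, ha'⟩ := hy
      obtain ⟨b, hb, hb'⟩ := hz
      refine ⟨a + b, by simp [Finset.sum_add_distrib, ha, hb], fun i => ?_⟩
      simp [add_mul, Finset.sum_add_distrib, ha', hb']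
    | neg y _ hy =>
      obtain ⟨a, ha, ha'⟩ := hy
      refine ⟨-a, by simp [ha], fun i => ?_⟩
      simp [ha']
  · rintro ⟨a, ha, hx⟩
    have h1 : x = ∑ v, a v • (fun i => (V v i : ℤ) - (V v0 i : ℤ)) := by
      funext i
      simp only [Finset.sum_apply, Pi.smul_apply, smul_eq_mul, mul_sub, Finset.sum_sub_distrib,
        ← Finset.sum_mul, ha, zero_mul, sub_zero, hx i]
    rw [h1]
    refine AddSubgroup.sum_mem _ fun v _ => AddSubgroup.zsmul_mem _ ?_ _
    refine AddSubgroup.subset_closure ?_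
    exact ⟨v0, v, rfl⟩

theorem fr_eq_iff (c c' : ι → ℝ) : fr c = fr c' ↔ ∃ a : ι → ℤ, ∀ v, c v - c' v = a v := by
  constructor
  · intro h
    refine ⟨fun v => ⌈c v⌉ - ⌈c' v⌉, fun v => ?_⟩
    have := congrFun h v
    unfold fr at this
    push_cast
    linarith
  · rintro ⟨a, ha⟩
    funext v
    have h1 : c v = c' v + a v := by linarith [ha v]
    unfold fr
    rw [h1, Int.ceil_add_intCast]
    push_cast
    ring

theorem mem_sat {V : ι → Fin n → ℕ}
    (hli : LinearIndependent ℝ fun (v : ι) (i : Fin n) => (V v i : ℝ)) (v0 : ι) (x : Fin n → ℤ) :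
    x ∈ sat {d : Fin n → ℤ | ∃ u v, d = fun i => (V v i : ℤ) - (V u i : ℤ)} ↔
      ∃ c : ι → ℝ, ∑ v, c v = 0 ∧ ∀ i, (x i : ℝ) = ∑ v, c v * V v i := by
  constructor
  · rintro ⟨k, hk, hx⟩
    obtain ⟨a, ha, hx'⟩ := (mem_clos V v0 _).1 hx
    have hk' : (k : ℝ) ≠ 0 := by exact_mod_cast hk
    refine ⟨fun v => a v / k, ?_, fun i => ?_⟩
    · rw [← Finset.sum_div]
      have : ((∑ v, a v : ℤ) : ℝ) = 0 := by rw [ha]; simp
      push_cast at this
      rw [this, zero_div]
    · have h1 : ((k * x i : ℤ) : ℝ) = ((∑ v, a v * V v i : ℤ) : ℝ) := by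
        have := hx' i
        rw [← this]
        simp
      push_cast at h1
      have h2 : (x i : ℝ) = (∑ v, (a v : ℝ) * V v i) / k := by
        rw [← h1]
        field_simp
      rw [h2, Finset.sum_div]
      refine Finset.sum_congr rfl fun v _ => ?_
      ring
  · rintro ⟨c, hc, hx⟩
    have hfin := finite_Bx hli
    have hmem : ∀ t : ℕ, fr (fun v => (t : ℝ) * c v) ∈ Bx V := by
      intro t
      refine fr_mem V _ 0 ?_ (fun i => t * x i) fun i => ?_
      · rw [← Finset.mul_sum, hc]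
        simp
      · push_cast
        rw [hx i, Finset.mul_sum]
        refine Finset.sum_congr rfl fun v _ => ?_
        ring
    let g : ℕ → Bx V := fun t => ⟨fr (fun v => (t : ℝ) * c v), hmem t⟩
    obtain ⟨s, t, hst, h⟩ := Finite.exists_ne_map_eq_of_infinite g
    have h' : fr (fun v => (s : ℝ) * c v) = fr (fun v => (t : ℝ) * c v) := congrArg Subtype.val h
    obtain ⟨a, ha⟩ := (fr_eq_iff _ _).1 h'
    refine ⟨(s : ℤ) - t, ?_, (mem_clos V v0 _).2 ⟨a, ?_, fun i => ?_⟩⟩
    · intro h0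
      apply hst
      have : (s : ℤ) = t := by linarith
      exact_mod_cast this
    · have h1 : ((∑ v, a v : ℤ) : ℝ) = 0 := by
        push_cast
        calc ∑ v, (a v : ℝ) = ∑ v, ((s : ℝ) * c v - t * c v) :=
              Finset.sum_congr rfl fun v _ => (ha v).symm
          _ = 0 := by rw [Finset.sum_sub_distrib, ← Finset.mul_sum, ← Finset.mul_sum, hc]; simp
      exact_mod_cast h1
    · have h1 : ((((s : ℤ) - t) * x i : ℤ) : ℝ) = ((∑ v, a v * V v i : ℤ) : ℝ) := by
        push_cast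
        rw [hx i, Finset.mul_sum]
        refine Finset.sum_congr rfl fun v _ => ?_
        rw [← ha v]
        ring
      have h2 := Int.cast_injective h1
      simpa using h2

theorem nat_card_Bx {V : ι → Fin n → ℕ}
    (hli : LinearIndependent ℝ fun (v : ι) (i : Fin n) => (V v i : ℝ)) (v0 : ι) :
    mult {d : Fin n → ℤ | ∃ u v, d = fun i => (V v i : ℤ) - (V u i : ℤ)} = Nat.card (Bx V) := by
  set D := {d : Fin n → ℤ | ∃ u v, d = fun i => (V v i : ℤ) - (V u i : ℤ)} with hD
  choose c hc0 hc using fun x : sat D => (mem_sat hli v0 x.1).1 x.2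
  let φ : sat D → Bx V := fun x => ⟨fr (c x), fr_mem V (c x) 0 (by rw [hc0 x]; simp) x.1 (hc x)⟩
  have hrel : ∀ x y : sat D, φ x = φ y ↔ -x + y ∈ (AddSubgroup.closure D).addSubgroupOf (sat D) := by
    intro x y
    rw [AddSubgroup.mem_addSubgroupOf]
    have hcoe : ((-x + y : sat D) : Fin n → ℤ) = -x.1 + y.1 := rfl
    rw [hcoe, mem_clos V v0]
    have e1 : φ x = φ y ↔ fr (c y) = fr (c x) :=
      ⟨fun h => (congrArg Subtype.val h).symm, fun h => Subtype.ext h.symm⟩
    rw [e1, fr_eq_iff]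
    constructor
    · rintro ⟨a, ha⟩
      refine ⟨a, ?_, fun i => ?_⟩
      · have h1 : ((∑ v, a v : ℤ) : ℝ) = 0 := by
          push_cast
          calc ∑ v, (a v : ℝ) = ∑ v, (c y v - c x v) :=
                Finset.sum_congr rfl fun v _ => (ha v).symm
            _ = 0 := by rw [Finset.sum_sub_distrib, hc0, hc0]; simp
        exact_mod_cast h1
      · have h1 : (((-x.1 + y.1) i : ℤ) : ℝ) = ((∑ v, a v * V v i : ℤ) : ℝ) := by
          simp only [Pi.add_apply, Pi.neg_apply]
          push_cast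
          rw [hc x i, hc y i, ← Finset.sum_neg_distrib, ← Finset.sum_add_distrib]
          refine Finset.sum_congr rfl fun v _ => ?_
          rw [← ha v]
          ring
        exact Int.cast_injective h1
    · rintro ⟨a, _, hx⟩
      refine ⟨a, fun v => ?_⟩
      have h1 : (fun v => c y v - c x v) = fun v => (a v : ℝ) := by
        refine uniq hli fun i => ?_
        have h2 : (((-x.1 + y.1) i : ℤ) : ℝ) = ((∑ v, a v * V v i : ℤ) : ℝ) := by rw [hx i]
        simp only [Pi.add_apply, Pi.neg_apply] at h2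
        push_cast at h2
        rw [hc x i, hc y i] at h2
        rw [← h2, ← Finset.sum_neg_distrib, ← Finset.sum_add_distrib]
        refine Finset.sum_congr rfl fun v _ => ?_
        ring
      exact congrFun h1 v
  have hsurj : Function.Surjective φ := by
    rintro ⟨f, hf⟩
    obtain ⟨hf1, ⟨h, hh⟩, x, hx⟩ := id hf
    have hy : (fun i => x i - h * V v0 i) ∈ sat D := by
      refine (mem_sat hli v0 _).2 ⟨fun v => f v - if v = v0 then (h : ℝ) else 0, ?_, fun i => ?_⟩
      · rw [Finset.sum_sub_distrib, hh]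
        simp
      · push_cast
        simp only [sub_mul, Finset.sum_sub_distrib, hx i, ite_mul, zero_mul, Finset.sum_ite_eq',
          Finset.mem_univ, if_true]
    refine ⟨⟨_, hy⟩, Subtype.ext ?_⟩
    have h1 : c ⟨_, hy⟩ = fun v => f v - if v = v0 then (h : ℝ) else 0 := by
      refine uniq hli fun i => ?_
      rw [← hc ⟨_, hy⟩ i]
      push_cast
      simp only [sub_mul, Finset.sum_sub_distrib, hx i, ite_mul, zero_mul, Finset.sum_ite_eq',
        Finset.mem_univ, if_true]
    show fr (c ⟨_, hy⟩) = f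
    rw [h1]
    funext v
    unfold fr
    have h2 : ⌈f v - if v = v0 then (h : ℝ) else 0⌉ = 1 - if v = v0 then (h : ℤ) else 0 := by
      rw [Int.ceil_eq_iff]
      have := hf1 v
      split_ifs <;> push_cast <;> constructor <;> linarith
    simp only [h2]
    by_cases hv : v = v0
    · simp only [hv, if_true]
      push_cast
      ring
    · simp only [hv, if_false]
      push_cast
      ring
  unfold mult AddSubgroup.relIndex AddSubgroup.index
  let ψ : (sat D ⧸ (AddSubgroup.closure D).addSubgroupOf (sat D)) → Bx V :=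
    Quotient.lift φ fun x y hxy => (hrel x y).2 (QuotientAddGroup.leftRel_apply.1 hxy)
  refine Nat.card_congr (Equiv.ofBijective ψ ⟨?_, ?_⟩)
  · intro a b
    refine Quotient.inductionOn₂ a b fun x y hxy => ?_
    exact Quotient.sound (QuotientAddGroup.leftRel_apply.2 ((hrel x y).1 hxy))
  · intro f
    obtain ⟨x, hx⟩ := hsurj f
    exact ⟨Quotient.mk _ x, hx⟩

end

theorem open_simplex {n : ℕ} (F : Finset (Fin n →₀ ℕ)) (hne : F.Nonempty)
    (hli : LinearIndependent ℝ (fun v : {v // v ∈ F} => rv v.1)) :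
    (∀ N : ℕ, Finite {x : Fin n → ℤ // ∃ c : (Fin n →₀ ℕ) → ℝ, (∀ v ∈ F, 0 < c v) ∧
      ∑ v ∈ F, c v = N ∧ ∀ i, (x i : ℝ) = ∑ v ∈ F, c v * v i}) ∧
    Tendsto (fun N : ℕ => ((F.card - 1).factorial : ℝ) *
      Nat.card {x : Fin n → ℤ // ∃ c : (Fin n →₀ ℕ) → ℝ, (∀ v ∈ F, 0 < c v) ∧
        ∑ v ∈ F, c v = N ∧ ∀ i, (x i : ℝ) = ∑ v ∈ F, c v * v i} / (N : ℝ) ^ (F.card - 1))
      atTop (𝓝 (nvol F)) := by
  classical
  let V : {v // v ∈ F} → Fin n → ℕ := fun v i => v.1 i
  have hli' : LinearIndependent ℝ fun (v : {v // v ∈ F}) (i : Fin n) => (V v i : ℝ) := hli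
  have hS : ∀ N : ℕ, {x : Fin n → ℤ | ∃ c : (Fin n →₀ ℕ) → ℝ, (∀ v ∈ F, 0 < c v) ∧
      ∑ v ∈ F, c v = N ∧ ∀ i, (x i : ℝ) = ∑ v ∈ F, c v * v i} = Sx V N := by
    intro N
    ext x
    constructor
    · rintro ⟨c, hc, hN, hx⟩
      refine ⟨fun v => c v.1, fun v => hc v.1 v.2, ?_, fun i => ?_⟩
      · rw [← hN, ← Finset.sum_coe_sort F]
      · rw [hx i, ← Finset.sum_coe_sort F]
    · rintro ⟨c, hc, hN, hx⟩
      refine ⟨fun v => if h : v ∈ F then c ⟨v, h⟩ else 0, fun v hv => ?_, ?_, fun i => ?_⟩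
      · simp only [dif_pos hv]
        exact hc _
      · rw [← hN, ← Finset.sum_coe_sort F]
        refine Finset.sum_congr rfl fun v _ => ?_
        simp
      · rw [hx i, ← Finset.sum_coe_sort F]
        refine Finset.sum_congr rfl fun v _ => ?_
        simp [V]
  have hcardF : 0 < F.card := Finset.card_pos.2 hne
  obtain ⟨v0, hv0⟩ := hne
  have hnv : nvol F = Nat.card (Bx V) := by
    rw [← nat_card_Bx hli' ⟨v0, hv0⟩]
    unfold nvol
    congr 1
    ext d
    constructor
    · rintro ⟨u, hu, v, hv, rfl⟩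
      exact ⟨⟨u, hu⟩, ⟨v, hv⟩, rfl⟩
    · rintro ⟨u, v, rfl⟩
      exact ⟨u.1, u.2, v.1, v.2, rfl⟩
  refine ⟨fun N => ?_, ?_⟩
  · obtain ⟨_, _, h⟩ := card_Sx hli'
    have h1 := (h N).1
    rw [← hS N] at h1
    exact h1
  · have h1 := tendsto_card hli' (F.card - 1) (by
      rw [Fintype.card_coe]
      omega)
    rw [← hnv] at h1
    refine h1.congr fun N => ?_
    rw [← hS N]
    rfl

end Pool.Agent.helper3.DL.Vol1
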